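import Pool.Agent.H10.IEP.Targets

/-!
# MP_e37c09_lc: module CV (the converse)
-/

open Ordinal Cardinal Order Set
open scoped ZFSet

universe u

namespace Pool.Agent.H11.IEP

open _root_.HD Pool.Agent.H10.IEP

/-! ## The relation -/

/-- `s` is a set of pairs of an element of some set and an element of `b`, cofinal in `b`, for an
element `b` of the `i`-th set of the partition `f` -/
def Rl (f s i : ZFSet.{u}) : Prop :=
  ∃ S b, ZFSet.pair i S ∈ f ∧ b ∈ S ∧ (∀ q ∈ s, ∃ a c, q = ZFSet.pair a c ∧ c ∈ b) ∧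
    ∀ c ∈ b, ∃ a d, ZFSet.pair a d ∈ s ∧ c ∈ d

theorem dz_rl0 : DZ.{u} fun v => Rl (v 0) (v 1) (v 2) := by
  refine DZ.ex (R := fun S v => ∃ b, ZFSet.pair (v 2) S ∈ v 0 ∧ b ∈ S ∧
    (∀ q ∈ v 1, ∃ a c, q = ZFSet.pair a c ∧ c ∈ b) ∧
    ∀ c ∈ b, ∃ a d, ZFSet.pair a d ∈ v 1 ∧ c ∈ d) ?_
  refine DZ.ex (R := fun b v => ZFSet.pair (v 3) (v 0) ∈ v 1 ∧ b ∈ v 0 ∧
    (∀ q ∈ v 2, ∃ a c, q = ZFSet.pair a c ∧ c ∈ b) ∧
    ∀ c ∈ b, ∃ a d, ZFSet.pair a d ∈ v 2 ∧ c ∈ d) ?_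
  refine DZ.and (loc_pmem 4 1 2).dz (DZ.and (DZ.mem 0 1) (DZ.and ?_ ?_))
  · refine DZ.allMem (R := fun q v => ∃ a c, q = ZFSet.pair a c ∧ c ∈ v 0) 3 ?_
    refine DZ.ex (R := fun a v => ∃ c, v 0 = ZFSet.pair a c ∧ c ∈ v 1) ?_
    refine DZ.ex (R := fun c v => v 1 = ZFSet.pair (v 0) c ∧ c ∈ v 2) ?_
    exact (loc_pair 2 1 0).dz.and (DZ.mem 0 3)
  · refine DZ.allMem (R := fun c v => ∃ a d, ZFSet.pair a d ∈ v 3 ∧ c ∈ d) 0 ?_
    refine DZ.ex (R := fun a v => ∃ d, ZFSet.pair a d ∈ v 4 ∧ v 0 ∈ d) ?_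
    refine DZ.ex (R := fun d v => ZFSet.pair (v 0) d ∈ v 5 ∧ v 1 ∈ d) ?_
    exact (loc_pmem 1 0 6).dz.and (DZ.mem 2 0)

theorem dz_rl (i j k : ℕ) : DZ.{u} fun v => Rl (v i) (v j) (v k) :=
  dz_rl0.ren fun n => if n = 0 then i else if n = 1 then j else k

theorem od_prod {x y : ZFSet.{u}} (hx : OD x) (hy : OD y) : OD (ZFSet.prod x y) := by
  refine OD.of_dz ?_
  refine DZ.od (R := fun a v => v 0 = ZFSet.prod a y) hx
    (DZ.od (R := fun b v => v 1 = ZFSet.prod (v 0) b) hy ?_)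
  exact (loc_prod 2 1 0).dz

theorem od_pow {x : ZFSet.{u}} (hx : OD x) : OD (ZFSet.powerset x) := by
  refine OD.of_dz ?_
  refine DZ.od (R := fun a v => v 0 = ZFSet.powerset a) hx ?_
  exact (loc_powerset 1 0).dz

/-- the function -/
noncomputable def FF (τ k : Ordinal.{u}) (f : ZFSet.{u}) : ZFSet.{u} :=
  ZFSet.sep (fun p => ∃ s i, p = ZFSet.pair s i ∧ Rl f s i)
    (ZFSet.prod (ZFSet.powerset (ZFSet.prod (ω : Ordinal.{u}).toZFSet k.toZFSet)) τ.toZFSet)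

theorem mem_FF {τ k : Ordinal.{u}} {f s i : ZFSet.{u}} :
    ZFSet.pair s i ∈ FF τ k f ↔
      s ⊆ ZFSet.prod (ω : Ordinal.{u}).toZFSet k.toZFSet ∧ i ∈ τ.toZFSet ∧ Rl f s i := by
  unfold FF
  rw [ZFSet.mem_sep, ZFSet.pair_mem_prod, ZFSet.mem_powerset]
  constructor
  · rintro ⟨⟨h1, h2⟩, s', i', he, h3⟩
    obtain ⟨rfl, rfl⟩ := ZFSet.pair_injective he
    exact ⟨h1, h2, h3⟩
  · rintro ⟨h1, h2, h3⟩
    exact ⟨⟨h1, h2⟩, s, i, rfl, h3⟩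

theorem od_FF {τ k : Ordinal.{u}} {f : ZFSet.{u}} (hf : OD f) : OD (FF τ k f) := by
  have hZ : OD (ZFSet.prod (ZFSet.powerset (ZFSet.prod (ω : Ordinal.{u}).toZFSet k.toZFSet))
    τ.toZFSet) := od_prod (od_pow (od_prod (OD.ordinal _) (OD.ordinal _))) (OD.ordinal _)
  refine OD.of_mem (P := fun v => v 0 ∈ ZFSet.prod (ZFSet.powerset
    (ZFSet.prod (ω : Ordinal.{u}).toZFSet k.toZFSet)) τ.toZFSet ∧
    ∃ s i, v 0 = ZFSet.pair s i ∧ Rl f s i) ?_ fun v => ?_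
  · refine DZ.and (DZ.od (R := fun a v => v 0 ∈ a) hZ (DZ.mem 1 0)) ?_
    refine DZ.od (R := fun f v => ∃ s i, v 0 = ZFSet.pair s i ∧ Rl f s i) hf ?_
    refine DZ.ex (R := fun s v => ∃ i, v 1 = ZFSet.pair s i ∧ Rl (v 0) s i) ?_
    refine DZ.ex (R := fun i v => v 2 = ZFSet.pair (v 0) i ∧ Rl (v 1) (v 0) i) ?_
    exact (loc_pair 3 1 0).dz.and (dz_rl 2 1 0)
  · unfold FF
    rw [ZFSet.mem_sep]

/-! ## Cofinal sequences -/

theorem exists_seq {b : Ordinal.{u}} (hb : b.cof = ℵ₀) :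
    ∃ e : ℕ → Ordinal.{u}, (∀ n, e n < b) ∧ ∀ y < b, ∃ n, y ≤ e n := by
  obtain ⟨ι, f, h1, h2⟩ := Ordinal.exists_lsub_cof b
  rw [hb] at h2
  obtain ⟨hd⟩ := Cardinal.denumerable_iff.2 h2
  let E : ι ≃ ℕ := Denumerable.eqv ι
  refine ⟨fun n => f (E.symm n), fun n => ?_, fun y hy => ?_⟩
  · have := Ordinal.lt_lsub f (E.symm n)
    rwa [h1] at this
  · rw [← h1, Ordinal.lt_lsub_iff] at hy
    obtain ⟨i, hi⟩ := hy
    refine ⟨E i, ?_⟩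
    simpa using hi

theorem clb {K : Cardinal.{u}} (hK : K.IsRegular) (hK' : ℵ₀ < K) {A : Set Ordinal.{u}}
    (hA : MC ω K.ord A) :
    Clb K.ord {x | 0 < x ∧ ∀ y < x, ∃ z < x, y < z ∧ z ∈ A} where
  unb := by
    intro a ha
    choose! g hg using hA.unb
    let z : ℕ → Ordinal.{u} := fun n => g^[n] a
    have hz : ∀ n, z n < K.ord := by
      intro n
      induction n with
      | zero => exact ha
      | succ n ih =>
        show g^[n + 1] a < K.ord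
        rw [Function.iterate_succ_apply']
        exact (hg _ ih).1
    have hs : ∀ n, z (n + 1) = g (z n) := fun n => Function.iterate_succ_apply' g n a
    have hlt : ∀ n, z n < z (n + 1) := fun n => by rw [hs]; exact (hg _ (hz n)).2.1
    have hle : ∀ n, z n ≤ ⨆ n, z n := fun n => Ordinal.le_iSup z n
    have hlt' : ∀ n, z n < ⨆ n, z n := fun n => (hlt n).trans_le (hle (n + 1))
    refine ⟨⨆ n, z n, ?_, hlt' 0, ?_, ?_⟩
    · refine Ordinal.lift_iSup_lt_of_lt_cof (β := ℕ) ?_ hz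
      rw [Ordinal.lift_id', hK.cof_ord]
      simpa using hK'
    · exact lt_of_le_of_lt bot_le (hlt' 0)
    · intro y hy
      obtain ⟨n, hn⟩ := (Ordinal.lt_iSup_iff).1 hy
      exact ⟨z (n + 1), hlt' _, hn.trans (hlt n), by rw [hs]; exact (hg _ (hz n)).2.2⟩
  cls := by
    intro x _ h0 h
    refine ⟨h0, fun y hy => ?_⟩
    obtain ⟨z, hz, hyz, -, h1⟩ := h y hy
    obtain ⟨w, hw, hyw, hwA⟩ := h1 y hyz
    exact ⟨w, hw.trans hz, hyw, hwA⟩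

/-! ## The theorem -/

theorem not_lt_of {s b b' : ZFSet.{u}}
    (h1 : ∀ q ∈ s, ∃ a c, q = ZFSet.pair a c ∧ c ∈ b)
    (h2 : ∀ c ∈ b', ∃ a d, ZFSet.pair a d ∈ s ∧ c ∈ d) : b ∉ b' := by
  intro h
  obtain ⟨a, d, hs, hd⟩ := h2 b h
  obtain ⟨a', c, he, hc⟩ := h1 _ hs
  obtain ⟨-, rfl⟩ := ZFSet.pair_injective he
  exact ZFSet.mem_asymm hd hc

theorem pf_CV : T_CV.{u} := by
  rintro τ K hK hK' ⟨F0, y, hF, hfun, hst, hel, -, hdj⟩
  refine ⟨FF τ K.ord F0, od_FF hF.od, ?_, ?_⟩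
  · intro s x x' h h'
    rw [mem_FF] at h h'
    obtain ⟨-, hx, S, b, hp, hb, h1, h2⟩ := h
    obtain ⟨-, hx', S', b', hp', hb', h1', h2'⟩ := h'
    obtain ⟨i, hi, rfl⟩ := mem_toZFSet_iff.1 hx
    obtain ⟨i', hi', rfl⟩ := mem_toZFSet_iff.1 hx'
    obtain ⟨β, hβ, rfl, -⟩ := hel i hi S hp b hb
    obtain ⟨β', hβ', rfl, -⟩ := hel i' hi' S' hp' b' hb'
    have e1 := not_lt_of h1 h2'
    have e2 := not_lt_of h1' h2
    rw [toZFSet_mem_toZFSet_iff] at e1 e2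
    have e : β = β' := le_antisymm (not_lt.1 e2) (not_lt.1 e1)
    subst e
    by_contra hne
    have hne' : i ≠ i' := fun h => hne (by rw [h])
    exact hdj i hi i' hi' S S' hp hp' hne' _ hb hb'
  · intro i hi A hA
    obtain ⟨S, hS, -⟩ := hfun.2 _ (toZFSet_mem_toZFSet_iff.2 hi)
    obtain ⟨b, hb, hbC, hbS⟩ := hst i hi S hS _ (clb hK hK' hA)
    obtain ⟨b', hb', he, hcof⟩ := hel i hi S hS _ hbS
    obtain rfl := toZFSet_injective he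
    obtain ⟨e, he1, he2⟩ := exists_seq hcof
    choose z hz using fun n => hbC.2 (e n) (he1 n)
    refine ⟨fun a => z (Cardinal.toNat a.card), fun a _ => ⟨(hz _).1.trans hb, (hz _).2.2⟩, ?_⟩
    rw [mem_FF]
    refine ⟨?_, toZFSet_mem_toZFSet_iff.2 hi, S, b.toZFSet, hS, hbS, ?_, ?_⟩
    · intro q hq
      obtain ⟨a, ha, rfl⟩ := mem_sq.1 hq
      rw [ZFSet.pair_mem_prod, toZFSet_mem_toZFSet_iff, toZFSet_mem_toZFSet_iff]
      exact ⟨ha, (hz _).1.trans hb⟩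
    · intro q hq
      obtain ⟨a, ha, rfl⟩ := mem_sq.1 hq
      exact ⟨_, _, rfl, toZFSet_mem_toZFSet_iff.2 (hz _).1⟩
    · intro c hc
      obtain ⟨γ, hγ, rfl⟩ := mem_toZFSet_iff.1 hc
      obtain ⟨n, hn⟩ := he2 γ hγ
      refine ⟨(n : Ordinal.{u}).toZFSet, (z n).toZFSet, mem_sq.2 ⟨n, ?_, ?_⟩,
        toZFSet_mem_toZFSet_iff.2 (hn.trans_lt (hz n).2.1)⟩
      · exact Ordinal.natCast_lt_omega0 n
      · simp

end Pool.Agent.H11.IEP
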